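import Pool.Agent.Y528.SCC.Fin

/-!
# How many chains are needed for MTL, IMTL and ΠMTL

Formulas, the calculi (`Prov L`), MTL-algebras, `IsAlg L` (being an `L`-algebra) and `eval` are
defined in `Pool.Agent.H539R3.SCC.Defs`; `Der`, `CompleteFor` and `SSCC` in
`Pool.Agent.Y528.SCC.Fin`.

For any `n` MTL-chains there is a common tautology which is refuted in a finite IMTL-chain. So MTL,
IMTL and all logics between MTL and the logic of the finite IMTL-chains are not complete with
respect to finitely many chains; ΠMTL is even strongly complete with respect to one chain.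

Idea. In an MTL-chain the elements with `y₀ = ¬y₀`, `y₁ = (y₁ → y₀)`, `y₂ = (y₂ → y₁)`, … are
unique, even approximately. The formula with number `i` is refuted only if (approximately)
`y_j ≤ y_(j+1) ^ 2` for `j < i`, while `y_i → y_(i+1) ^ 2` is nilpotent; so in a chain at most one
of the formulas is refuted. On `{0, …, 2 m}` with `m = 2 ^ (i+1)` let
`a * b = max (a + b - 2 m) 0` if `a` or `b` is even and `max (a + b - 2 m - 1) 0` otherwise; this is
an IMTL-chain which refutes the formula with number `i`.
-/

set_option autoImplicit false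

namespace Pool.Agent.Results.MP_339e98_lc.NumberOfChains

open Pool.Agent.H539R3.SC Pool.Agent.Y528.SCC

universe u v

/-- (1) Any `n` MTL-chains have a common tautology that is refuted in some IMTL-chain with at most
`2 ^ (n + 2) + 1` elements. (2) For MTL and for IMTL every family of chains whose common
tautologies are the theorems is infinite, and there is a countable one. (3) ΠMTL has strong single
chain completeness. -/
theorem result :
    (∀ (n : ℕ) (A : Fin n → Type u) [∀ s, MTLAlgebra (A s)],
      (∀ (s : Fin n) (x y : A s), x ≤ y ∨ y ≤ x) →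
      ∃ φ : Fm, (∀ (s : Fin n) (e : ℕ → A s), eval e φ = 1) ∧
        ∃ (B : Type) (_ : MTLAlgebra B) (_ : Fintype B), (∀ x y : B, x ≤ y ∨ y ≤ x) ∧
          IsAlg .IMTL B ∧ Fintype.card B ≤ 2 ^ (n + 2) + 1 ∧ ∃ e : ℕ → B, eval e φ ≠ 1) ∧
    (∀ L : Logic, L = .MTL ∨ L = .IMTL →
      (∀ (ι : Type v) (A : ι → Type u) [∀ i, MTLAlgebra (A i)], CompleteFor L A → Infinite ι) ∧
      ∃ (ι : Type) (_ : Countable ι) (A : ι → Type) (_ : ∀ i, MTLAlgebra (A i)),
        CompleteFor L A) ∧
    SSCC.{u} .PiMTL := by
  refine ⟨fun n A _ h => n_chains n A h, fun L hL => ⟨fun ι A _ h => infinite_of_complete ?_ A h,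
    countable_complete L⟩, sscc_PiMTL⟩
  rcases hL with rfl | rfl <;> simp

end Pool.Agent.Results.MP_339e98_lc.NumberOfChains
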